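import Pool.Agent.MP_760060_nt.W.Stm

/-! Divided differences of `lam` along a progression, at a prime that divides ten. -/

open Finset Polynomial Filter Topology

namespace Pool.Agent.MP_760060_nt.W

namespace AnaJ

/-- `n` points from `s` on, with step ten -/
noncomputable def SP (s : ℤ) (n : ℕ) : Finset ℤ :=
  (Ico s (s + 10 * n)).filter fun x => (x - s) % 10 = 0

theorem mem_SP {s x : ℤ} {n : ℕ} : x ∈ SP s n ↔ (s ≤ x ∧ x < s + 10 * n) ∧ (x - s) % 10 = 0 := by
  simp only [SP, mem_filter, mem_Ico]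

theorem SP_zero (s : ℤ) : SP s 0 = ∅ := by
  ext x
  simp only [mem_SP, notMem_empty, iff_false]
  omega

theorem SP_one (s : ℤ) : SP s 1 = {s} := by
  ext x
  simp only [mem_SP, mem_singleton]
  omega

theorem erase_top (s : ℤ) (n : ℕ) : (SP s (n + 1)).erase (s + 10 * n) = SP s n := by
  ext x
  simp only [mem_SP, mem_erase]
  omega

theorem erase_bot (s : ℤ) (n : ℕ) :
    (SP s (n + 1)).erase s = (SP s n).image fun x => x + 10 := by
  ext x
  simp only [mem_SP, mem_erase, mem_image]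
  constructor
  · intro h
    exact ⟨x - 10, by omega, by omega⟩
  · rintro ⟨y, h, rfl⟩
    omega

theorem dd_empty (F : ℤ → ℚ) : dd ∅ F = 0 := sum_empty

theorem dd_congr {S : Finset ℤ} {F G : ℤ → ℚ} (h : ∀ x ∈ S, F x = G x) : dd S F = dd S G :=
  sum_congr rfl fun x hx => by rw [h x hx]

theorem dd_sub (S : Finset ℤ) (F G : ℤ → ℚ) : dd S (fun x => F x - G x) = dd S F - dd S G := by
  simp only [dd, sub_div, sum_sub_distrib]

theorem dd_shift (S : Finset ℤ) (F : ℤ → ℚ) :
    dd (S.image fun x => x + 10) F = dd S fun x => F (x + 10) := by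
  have hi : Function.Injective fun x : ℤ => x + 10 := add_left_injective 10
  rw [dd, sum_image hi.injOn]
  refine sum_congr rfl fun x _ => ?_
  rw [om, ← image_erase hi S x, prod_image hi.injOn, om]
  congr 1
  refine prod_congr rfl fun y _ => ?_
  push_cast
  ring

theorem key {S : Finset ℤ} {a : ℤ} (ha : a ∈ S) (t : ℚ) (F : ℤ → ℚ) :
    dd S (fun x => (x - t) * F x) = dd (S.erase a) F + (a - t) * dd S F := by
  have e : dd (S.erase a) F = ∑ x ∈ S, (x - a) * F x / om S x := by
    rw [← add_sum_erase S _ ha, sub_self, zero_mul, zero_div, zero_add]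
    refine sum_congr rfl fun x hx => ?_
    obtain ⟨h1, -⟩ := mem_erase.1 hx
    have h2 : (x : ℚ) - a ≠ 0 := sub_ne_zero.2 (by exact_mod_cast h1)
    have h3 : om S x = (x - a) * om (S.erase a) x := by
      rw [om, om, erase_right_comm]
      exact (mul_prod_erase _ (fun y : ℤ => (x : ℚ) - y) (mem_erase.2 ⟨h1.symm, ha⟩)).symm
    rw [h3, mul_div_mul_left _ _ h2]
  rw [e, dd, dd, mul_sum, ← sum_add_distrib]
  exact sum_congr rfl fun x _ => by ring

/-- all divided differences along short progressions in the class `- c` are bounded -/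
def OK (p N : ℕ) (c : ℤ) (b : ℝ) (F : ℤ → ℚ) : Prop :=
  ∀ (n : ℕ) (s : ℤ), (s + c) % 10 = 0 → n ≤ N → Vb p b (dd (SP s n) F)

variable {p N : ℕ} [hp : Fact p.Prime] {c : ℤ} {b : ℝ} {F G : ℤ → ℚ}

theorem OK.sub (h1 : OK p N c b F) (h2 : OK p N c b G) : OK p N c b fun x => F x - G x :=
  fun n s hs hn => by
    rw [dd_sub]
    exact (h1 n s hs hn).sub (h2 n s hs hn)

theorem OK.mul (h : OK p N c b F) (t : ℤ) : OK p N c b fun x => (x - t) * F x := by
  intro n s hs hn
  rcases n with _ | n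
  · rw [SP_zero, dd_empty]
    exact vb_zero b
  · rw [key (a := s + 10 * n) (mem_SP.2 (by omega)), erase_top]
    exact (h n s hs (by omega)).add (((vb_int _).sub (vb_int _)).mul0 (h _ s hs hn))

omit hp in
theorem unit (h10 : (p : ℤ) ∣ 10) {x w : ℤ} (hx : (x + c) % 10 = 0) (hw : ¬ (p : ℤ) ∣ w + c) :
    ¬ (p : ℤ) ∣ x - w := fun h => hw (by
  rw [show w + c = x + c - (x - w) by ring]
  exact dvd_sub (h10.trans (Int.dvd_of_emod_eq_zero hx)) h)

theorem OK.div (h : OK p N c b F) (h10 : (p : ℤ) ∣ 10) {w : ℤ} (hw : ¬ (p : ℤ) ∣ w + c) :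
    OK p N c b fun x => F x / (x - w) := by
  intro n s hs hn
  have ne : ∀ x : ℤ, (x + c) % 10 = 0 → (x : ℚ) - w ≠ 0 := fun x hx h0 =>
    unit h10 hx hw (by
      have : x - w = 0 := by exact_mod_cast h0
      rw [this]
      exact dvd_zero _)
  induction n with
  | zero =>
    rw [SP_zero, dd_empty]
    exact vb_zero b
  | succ n ih =>
    have h1 := key (S := SP s (n + 1)) (a := s + 10 * n) (mem_SP.2 (by omega)) w
      fun x => F x / (x - w)
    rw [erase_top, dd_congr (G := F) fun x hx =>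
      mul_div_cancel₀ _ (ne x (by rw [mem_SP] at hx; omega))] at h1
    have h2 : (s + 10 * n + c) % 10 = 0 := by omega
    have h3 := (vb_inv_unit (unit h10 h2 hw)).mul0 ((h _ s hs hn).sub (ih (by omega)))
    rwa [h1, add_sub_cancel_left, Int.cast_sub, inv_mul_cancel_left₀ (ne _ h2)] at h3

theorem ok_const (k : ℤ) : OK p N c 0 fun _ => (k : ℚ) := by
  intro n s _ _
  rcases (SP s n).eq_empty_or_nonempty with h | h
  · rw [h, dd_empty]
    exact vb_zero 0
  · have := dd_coeff (SP s n) (C (k : ℚ)) (degree_C_le.trans_lt (by exact_mod_cast h.card_pos))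
    simp only [eval_C] at this
    rw [this, coeff_C]
    split_ifs
    · exact vb_int k
    · exact vb_zero 0

theorem vb_lam (h10 : (p : ℤ) ∣ 10) (h3 : ¬ (p : ℤ) ∣ -3 + c) (h5 : ¬ (p : ℤ) ∣ -5 + c)
    (h9 : ¬ (p : ℤ) ∣ -9 + c) {s : ℤ} (hs : (s + c) % 10 = 0) : Vb p 0 (lam s) := by
  have h : ∀ t : ℤ, Vb p 0 ((wt t : ℚ) / (s - t)) := fun t => by
    by_cases h0 : wt t = 0
    · rw [h0, Int.cast_zero, zero_div]
      exact vb_zero 0
    rw [div_eq_mul_inv, ← Int.cast_sub]
    refine (vb_int _).mul0 (vb_inv_unit ?_)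
    rcases wt_ne.1 h0 with h1 | h1 | h1
    · rw [show s - t = s - t - 3 - -3 by ring]
      exact unit h10 (by omega) h3
    · rw [show s - t = s - t - 5 - -5 by ring]
      exact unit h10 (by omega) h5
    · rw [show s - t = s - t - 9 - -9 by ring]
      exact unit h10 (by omega) h9
  exact (Vb.sum fun t _ => h t).sub (Vb.sum fun t _ => h t)

theorem sq_ten {p : ℕ} (h2 : 2 ≤ p) : ¬ (p : ℤ) ^ (1 + 1) ∣ 10 := fun h => by
  have h1 : p ^ (1 + 1) ∣ 10 := by exact_mod_cast h
  have h3 : p ≤ 3 := by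
    have := Nat.le_of_dvd (by norm_num) h1
    rw [pow_succ, pow_one] at this
    nlinarith
  interval_cases p <;> omega

theorem ok_lam {R : ℕ} (h10 : (p : ℤ) ∣ 10) (h3 : ¬ (p : ℤ) ∣ -3 + c) (h5 : ¬ (p : ℤ) ∣ -5 + c)
    (h9 : ¬ (p : ℤ) ∣ -9 + c) : OK p (R + 1) c (1 + Nat.log p R) lam := by
  intro n s hs hn
  rcases n with _ | _ | n
  · rw [SP_zero, dd_empty]
    exact vb_zero _
  · have e : dd {s} lam = lam s := by simp [dd, om]
    rw [zero_add, SP_one, e]
    exact (vb_lam h10 h3 h5 h9 hs).mono (by positivity)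
  · have k1 := key (S := SP s (n + 1 + 1)) (a := s) (mem_SP.2 (by omega)) 0 lam
    have k2 := key (S := SP s (n + 1 + 1)) (a := s + 10 * (n + 1 : ℕ)) (mem_SP.2 (by omega)) 0 lam
    rw [erase_bot, dd_shift] at k1
    rw [erase_top] at k2
    have k3 := ((((ok_const (p := p) (N := R + 1) 8).div h10 h5).sub ((ok_const 10).div h10 h9)).sub
      ((ok_const 3).div h10 h3)) (n + 1) s hs (by omega)
    rw [dd_congr (G := fun x => lam (x + 10) - lam x) fun x _ => by
      rw [lam_shift]
      push_cast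
      simp only [sub_neg_eq_add], dd_sub] at k3
    have k4 := ((vb_inv_pow (p := p) (n := 10) (sq_ten hp.out.two_le)).mul
      (vb_inv_log (p := p) (n := (n + 1 : ℕ)) (R := R)
        (by rw [Nat.abs_cast]; exact_mod_cast (by omega)))).mul k3
    rw [add_zero, Nat.cast_one] at k4
    convert k4 using 1
    push_cast at k1 k2 ⊢
    field_simp
    linear_combination k1 - k2

theorem ok_prod (h : OK p N c b F) (T : Multiset ℤ) :
    OK p N c b fun x => F x * (T.map fun t : ℤ => (x : ℚ) - t).prod := by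
  induction T using Multiset.induction_on with
  | empty => simpa using h
  | cons t T ih =>
    have := ih.mul t
    simp only [Multiset.map_cons, Multiset.prod_cons]
    convert this using 2
    ring

theorem ok_quot (h : OK p N c b F) (h10 : (p : ℤ) ∣ 10) (Y : Finset ℤ)
    (hY : ∀ w ∈ Y, ¬ (p : ℤ) ∣ w + c) : OK p N c b fun x => F x / ∏ w ∈ Y, ((x : ℚ) - w) := by
  induction Y using Finset.induction_on with
  | empty => simpa using h
  | insert w Y hw ih =>
    have := (ih fun v hv => hY v (mem_insert_of_mem hv)).div h10 (hY w (mem_insert_self _ _))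
    simp only [prod_insert hw]
    convert this using 2
    rw [div_div, mul_comm]

end AnaJ

open AnaJ in
theorem stAna : StAna := by
  intro p h _ c T Y h10 h3 h5 h9 hY
  have n : ∀ a : ℤ, ¬ (p : ℤ) ∣ a - c → ¬ (p : ℤ) ∣ -a + c := fun a h1 h2 =>
    h1 (by rwa [← dvd_neg, neg_add, neg_neg, ← sub_eq_add_neg] at h2)
  have e : AP c h = SP (-(10 * (h : ℤ)) - c) (2 * h + 1) := by
    ext x
    rw [mem_AP, mem_SP]
    omega
  rw [e]
  exact ok_quot (ok_prod (ok_lam h10 (n 3 h3) (n 5 h5) (n 9 h9)) T) h10 Y hY _ _ (by omega) le_rfl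

end Pool.Agent.MP_760060_nt.W
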