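import Pool.Agent.MP_760060_nt.W.Stm

/-! The block of one residue class in the Newton basis. -/

open Finset Polynomial

namespace Pool.Agent.MP_760060_nt.W

namespace BlkJ

theorem exists_seq (S N : Finset ℤ) (h : N ⊆ S) : ∃ x : ℕ → ℤ, (∀ l < #S, x l ∈ S) ∧
    (∀ w ∈ S, ∃ l < #S, x l = w) ∧ ∀ w ∈ S, w ∉ N → ∃ l < #S - #N, x l = w := by
  have hl1 : (S \ N).toList.length = #S - #N := by
    rw [length_toList, card_sdiff_of_subset h]
  have hl : ((S \ N).toList ++ N.toList).length = #S := by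
    rw [List.length_append, hl1, length_toList]
    have := card_le_card h
    omega
  have hm : ∀ w, w ∈ (S \ N).toList ++ N.toList ↔ w ∈ S := fun w => by
    simp only [List.mem_append, mem_toList, mem_sdiff]
    constructor
    · rintro (h1 | h1)
      · exact h1.1
      · exact h h1
    · intro h1
      by_cases h2 : w ∈ N
      · exact Or.inr h2
      · exact Or.inl ⟨h1, h2⟩
  refine ⟨fun l => ((S \ N).toList ++ N.toList).getD l 0, fun l h1 => ?_, fun w h1 => ?_,
    fun w h1 h2 => ?_⟩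
  · rw [← hl] at h1
    simp only [List.getD_eq_getElem _ _ h1]
    exact (hm _).1 (List.getElem_mem h1)
  · obtain ⟨l, h2, h3⟩ := List.getElem_of_mem ((hm w).2 h1)
    exact ⟨l, hl ▸ h2, by simp only [List.getD_eq_getElem _ _ h2, h3]⟩
  · obtain ⟨l, h3, h4⟩ := List.getElem_of_mem (mem_toList.2 (mem_sdiff.2 ⟨h1, h2⟩))
    refine ⟨l, hl1 ▸ h3, ?_⟩
    have h5 : l < ((S \ N).toList ++ N.toList).length := by
      rw [List.length_append]
      omega
    simp only [List.getD_eq_getElem _ _ h5]
    rw [List.getElem_append_left h3, h4]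

theorem vb_newt {p : ℕ} [Fact p.Prime] {x : ℕ → ℤ} {w : ℤ} {i : ℕ}
    (h : ∀ l < i, (p : ℤ) ∣ w - x l) : Vb p (-(i : ℝ)) (∏ l ∈ range i, ((w : ℚ) - x l)) := by
  have := Vb.prod (p := p) (s := range i) (c := fun _ => (-1 : ℝ))
    (f := fun l => (w : ℚ) - x l) fun l hl => by
      simpa using vb_dvd (h l (mem_range.1 hl))
  simpa using this

end BlkJ

open BlkJ in
theorem stBlk (hNewt : StNewt) : StBlk := by
  intro p _ d S N z c hN hd h1 h2
  obtain ⟨x, hx1, hx2, hx3⟩ := exists_seq S N hN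
  choose γ hγ using fun s : ℕ => hNewt #S x (X ^ s)
  have hk : ((#S - #N : ℕ) : ℝ) + #N = #S := by
    rw [← Nat.cast_add, Nat.sub_add_cancel (card_le_card hN)]
  refine ⟨fun i s => γ s i, fun i j => ∑ w ∈ S,
    c w * (∏ l ∈ range i, ((w : ℚ) - x l)) * ∏ l ∈ range j, ((w : ℚ) - x l),
    fun i s => vb_int _, fun i hi j hj => Vb.sum fun w hw => ?_, fun s t => ?_⟩
  · have e1 := vb_newt (p := p) (x := x) (w := w) (i := i)
      fun l hl => hd w hw _ (hx1 l (hl.trans hi))
    have e2 := vb_newt (p := p) (x := x) (w := w) (i := j)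
      fun l hl => hd w hw _ (hx1 l (hl.trans hj))
    by_cases hw2 : w ∈ N
    · refine (((h2 w hw2).mul e1).mul e2).mono ?_
      simp only [aa]
      push_cast [-Nat.cast_sub]
      split_ifs <;> linarith
    · obtain ⟨l, hl, rfl⟩ := hx3 w hw hw2
      by_cases a1 : #S - #N ≤ i
      · rw [prod_eq_zero (mem_range.2 (hl.trans_le a1)) (sub_self _), mul_zero, zero_mul]
        exact vb_zero _
      by_cases a2 : #S - #N ≤ j
      · rw [prod_eq_zero (s := range j) (mem_range.2 (hl.trans_le a2)) (sub_self _), mul_zero]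
        exact vb_zero _
      refine (((h1 _ hw).mul e1).mul e2).mono ?_
      simp only [aa, if_neg a1, if_neg a2]
      push_cast [-Nat.cast_sub]
      linarith
  · have e : ∀ w ∈ S, ∀ s : ℕ, (w : ℚ) ^ s =
        ∑ i ∈ range #S, (γ s i : ℚ) * ∏ l ∈ range i, ((w : ℚ) - x l) := fun w hw s => by
      obtain ⟨j, hj, rfl⟩ := hx2 w hw
      have := hγ s j hj
      rw [eval_pow, eval_X] at this
      exact_mod_cast this
    simp only [mul_sum, sum_mul]
    rw [sum_congr rfl fun w hw => by rw [e w hw s, e w hw t]]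
    simp only [mul_sum, sum_mul]
    rw [sum_comm]
    refine Eq.trans ?_ sum_comm
    refine sum_congr rfl fun j _ => ?_
    rw [sum_comm]
    exact sum_congr rfl fun i _ => sum_congr rfl fun w _ => by ring

end Pool.Agent.MP_760060_nt.W
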