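import Pool.Agent.MP_760060_nt.W.Stm

/-! The block form of the determinant bound. -/

open Finset Polynomial Filter Topology

namespace Pool.Agent.MP_760060_nt.W

namespace BlkDJ

theorem sum_sig {M : Type} [AddCommMonoid M] (n : ℕ) (k : ℕ → ℕ) (f : ℕ → ℕ → M) :
    ∑ α : (Σ m : Fin n, Fin (k m)), f α.1 α.2 = ∑ m ∈ range n, ∑ i ∈ range (k m), f m i := by
  rw [Fintype.sum_sigma, sum_range]
  refine sum_congr rfl fun m _ => ?_
  rw [sum_range]

end BlkDJ

theorem stBlkD (hLemD : StLemD) : StBlkD := by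
  intro p _ d n Q k a τ h
  have h' : ∀ m : ℕ, ∃ (γ : ℕ → Fin d → ℚ) (B : ℕ → ℕ → ℚ), m < n →
      ((∀ i s, Vb p 0 (γ i s)) ∧
      (∀ i < k m, ∀ j < k m, Vb p (-(a m i + a m j) / 2) (B i j)) ∧
      ∀ s t, Q m s t = ∑ i ∈ range (k m), ∑ j ∈ range (k m), γ i s * B i j * γ j t) := by
    intro m
    by_cases hm : m < n
    · obtain ⟨γ, B, h1⟩ := h m hm
      exact ⟨γ, B, fun _ => h1⟩
    · exact ⟨0, 0, fun h1 => absurd h1 hm⟩
  choose γ B hγ using h'
  have key := hLemD p (Fin d) (Σ m : Fin n, Fin (k m))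
    (Matrix.of fun α s => γ α.1 α.2 s) (Matrix.of fun α s => γ α.1 α.2 s)
    (Matrix.of fun α β => if α.1 = β.1 then B α.1 α.2 β.2 else 0) (fun α => a α.1 α.2) τ
    (fun α s => (hγ α.1 α.1.2).1 _ _) (fun α s => (hγ α.1 α.1.2).1 _ _) (by
      rintro ⟨m, i⟩ ⟨m', j⟩
      simp only [Matrix.of_apply]
      split_ifs with hm
      · subst hm
        exact (hγ m m.2).2.1 _ i.2 _ j.2
      · exact vb_zero _)
  rw [BlkDJ.sum_sig n k (fun m i => max 0 (τ - a m i)), Fintype.card_fin] at key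
  have hM : (Matrix.of fun s t => ∑ m ∈ range n, Q m s t) =
      (Matrix.of fun (α : Σ m : Fin n, Fin (k m)) s => γ α.1 α.2 s).transpose *
      (Matrix.of fun (α β : Σ m : Fin n, Fin (k m)) =>
        if α.1 = β.1 then B α.1 α.2 β.2 else 0) *
      (Matrix.of fun (α : Σ m : Fin n, Fin (k m)) s => γ α.1 α.2 s) := by
    ext s t
    simp only [Matrix.of_apply, Matrix.mul_apply, Matrix.transpose_apply]
    rw [Fintype.sum_sigma, sum_range]
    refine sum_congr rfl fun m _ => ?_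
    rw [(hγ m m.2).2.2 s t, sum_comm, sum_range]
    refine sum_congr rfl fun j _ => ?_
    rw [← sum_mul, Fintype.sum_sigma]
    congr 1
    rw [sum_eq_single m]
    · rw [sum_range]
      simp
    · intro m' _ hm'
      simp [hm']
    · simp
  rw [hM]
  exact key

end Pool.Agent.MP_760060_nt.W
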