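import Pool.Agent.MP_760060_nt.W.Stm

/-! The size of a Gram determinant at a prime. -/

open Finset

namespace Pool.Agent.MP_760060_nt.W

namespace LemDJ

variable {ι κ : Type} [Fintype ι] [DecidableEq ι] [Fintype κ]

/-- expansion of the determinant of a product along the rows -/
theorem expand (A : Matrix ι κ ℚ) (C : Matrix κ ι ℚ) :
    (A * C).det = ∑ f : ι → κ, (∏ i, A i (f i)) * (C.submatrix f id).det := by
  have e : A * C = fun i => ∑ α, A i α • C α := by
    funext i j
    simp [Matrix.mul_apply, Finset.sum_apply]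
  have h := (Matrix.detRowAlternating (n := ι) (R := ℚ)).toMultilinearMap.map_sum
    (fun i α => A i α • C α)
  rw [e]
  refine h.trans (sum_congr rfl fun f _ => ?_)
  exact (Matrix.detRowAlternating (n := ι) (R := ℚ)).toMultilinearMap.map_smul_univ
    (fun i => A i (f i)) (fun i => C (f i))

theorem vb_mul {p : ℕ} [Fact p.Prime] {b : ℝ} (A : Matrix ι κ ℚ) (C : Matrix κ ι ℚ)
    (hA : ∀ i α, Vb p 0 (A i α))
    (hC : ∀ f : ι → κ, Function.Injective f → Vb p b (C.submatrix f id).det) :
    Vb p b (A * C).det := by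
  rw [expand]
  refine Vb.sum fun f _ => (Vb.prod0 fun i _ => hA i (f i)).mul0 ?_
  by_cases hf : Function.Injective f
  · exact hC f hf
  · obtain ⟨i, j, hij, hne⟩ := Function.not_injective_iff.1 hf
    rw [Matrix.det_zero_of_row_eq hne (by funext l; simp [hij])]
    exact vb_zero b

omit [DecidableEq ι] in
theorem sum_le (a : κ → ℝ) (τ : ℝ) {f : ι → κ} (hf : Function.Injective f) :
    - ∑ i, a (f i) ≤ ∑ α, max 0 (τ - a α) - Fintype.card ι * τ := by
  classical
  have h1 : ∑ i, max 0 (τ - a (f i)) ≤ ∑ α, max 0 (τ - a α) := by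
    rw [← sum_image (s := univ) (g := f) (f := fun α => max 0 (τ - a α)) fun _ _ _ _ h => hf h]
    exact sum_le_sum_of_subset_of_nonneg (subset_univ _) fun _ _ _ => le_max_left _ _
  have h2 : ∑ i, (τ - a (f i)) ≤ ∑ i, max 0 (τ - a (f i)) := sum_le_sum fun _ _ => le_max_right _ _
  rw [sum_sub_distrib, sum_const, card_univ, nsmul_eq_mul] at h2
  linarith

end LemDJ

open LemDJ in
theorem stLemD : StLemD := by
  intro p _ ι κ _ _ _ U W B a τ hU hW hB
  rw [Matrix.mul_assoc]
  refine vb_mul _ _ (fun i α => hU α i) fun f hf => ?_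
  have e : ((B * W).submatrix f id).transpose = W.transpose * (B.submatrix f id).transpose := by
    ext i j
    simp [Matrix.mul_apply, mul_comm]
  rw [← Matrix.det_transpose, e]
  refine vb_mul _ _ (fun i α => hW α i) fun g hg => ?_
  refine (vb_det _ (fun i => - a (g i) / 2) (fun j => - a (f j) / 2) fun i j => ?_).mono ?_
  · refine (hB (f j) (g i)).mono (le_of_eq ?_)
    ring
  · have h1 := sum_le a τ hf
    have h2 := sum_le a τ hg
    rw [← sum_div, ← sum_div, sum_neg_distrib, sum_neg_distrib]
    linarith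

end Pool.Agent.MP_760060_nt.W
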