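import Pool.Agent.MP_760060_nt.W.Stm

/-! Vanishing divided differences lower the degree of the interpolating polynomial. -/

open Finset Polynomial Filter Topology

namespace Pool.Agent.MP_760060_nt.W

theorem stN1 : StN1 := by
  intro S F k hk h
  have hinj : Set.InjOn (fun x : ℤ => (x : ℚ)) S := Int.cast_injective.injOn
  have hd := Lagrange.degree_interpolate_lt (r := F) hinj
  have he : ∀ x ∈ S, (Lagrange.interpolate S (fun x : ℤ => (x : ℚ)) F).eval (x : ℚ) = F x :=
    fun x hx => Lagrange.eval_interpolate_at_node (r := F) hinj hx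
  generalize Lagrange.interpolate S (fun x : ℤ => (x : ℚ)) F = Q at hd he
  refine ⟨Q, ?_, he⟩
  rcases eq_or_ne Q 0 with rfl | h0
  · rw [degree_zero]
    exact WithBot.bot_lt_coe _
  rw [← natDegree_lt_iff_degree_lt h0] at hd ⊢
  by_contra hc
  have h1 := h (#S - 1 - Q.natDegree) (by omega)
  have h2 : degree (Q * X ^ (#S - 1 - Q.natDegree)) < ((#S : ℕ) : WithBot ℕ) := by
    refine degree_le_natDegree.trans_lt ?_
    rw [natDegree_mul_X_pow _ h0]
    exact_mod_cast (by omega : Q.natDegree + (#S - 1 - Q.natDegree) < #S)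
  have h3 := dd_coeff S _ h2
  have h4 : (Q * X ^ (#S - 1 - Q.natDegree)).coeff (#S - 1) = Q.leadingCoeff := by
    have := coeff_mul_X_pow Q (#S - 1 - Q.natDegree) Q.natDegree
    rwa [show Q.natDegree + (#S - 1 - Q.natDegree) = #S - 1 by omega] at this
  refine leadingCoeff_ne_zero.2 h0 ?_
  rw [← h4, ← h3, ← h1]
  refine sum_congr rfl fun x hx => ?_
  simp only [eval_mul, eval_pow, eval_X, he x hx]

end Pool.Agent.MP_760060_nt.W
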