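import Pool.Agent.MP_760060_nt.W.Stm

/-! A difference equation without rational solutions. -/

open Finset Polynomial Filter Topology

namespace Pool.Agent.MP_760060_nt.W

namespace N3J

theorem noCommon (Q R : ℚ[X])
    (he : ∀ s : ℚ, (s + 3) * (s + 5) * (s + 9) * (Q.eval (s + 10) * R.eval s -
      Q.eval s * R.eval (s + 10)) = (8 * (s + 3) * (s + 9) - 10 * (s + 3) * (s + 5) -
        3 * (s + 5) * (s + 9)) * R.eval s * R.eval (s + 10))
    (hc : ∀ t : ℚ, R.eval t = 0 → Q.eval t ≠ 0) : R = 0 := by
  have up : ∀ s : ℚ, 0 < s → R.eval s = 0 → R.eval (s + 10) = 0 := fun s h0 hs => by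
    have h1 := he s
    have h2 : (s + 3) * (s + 5) * (s + 9) ≠ 0 := by positivity
    rw [hs, mul_zero, mul_zero, zero_mul, zero_sub, mul_eq_zero, neg_eq_zero] at h1
    exact (mul_eq_zero.1 (h1.resolve_left h2)).resolve_left (hc s hs)
  have down : ∀ s : ℚ, s < -9 → R.eval (s + 10) = 0 → R.eval s = 0 := fun s h0 hs => by
    have h1 := he s
    have h2 : (s + 3) * (s + 5) * (s + 9) ≠ 0 :=
      mul_ne_zero (mul_ne_zero (by linarith) (by linarith)) (by linarith)
    rw [hs, mul_zero, mul_zero, sub_zero, mul_eq_zero] at h1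
    exact (mul_eq_zero.1 (h1.resolve_left h2)).resolve_left (hc _ hs)
  have h1 := he (-9)
  norm_num at h1
  apply eq_zero_of_infinite_isRoot
  rcases h1 with h2 | h2
  · have h3 : ∀ n : ℕ, R.eval (-10 * (n : ℚ) - 9) = 0 := fun n => by
      induction n with
      | zero => simpa using h2
      | succ n ih =>
        have : (0 : ℚ) ≤ n := n.cast_nonneg
        refine down _ (by push_cast; linarith) ?_
        rw [← ih]
        push_cast
        ring_nf
    exact Set.infinite_of_injective_forall_mem (f := fun n : ℕ => -10 * (n : ℚ) - 9)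
      (fun a b hab => by simpa using hab) h3
  · have h3 : ∀ n : ℕ, R.eval (10 * (n : ℚ) + 1) = 0 := fun n => by
      induction n with
      | zero => simpa using h2
      | succ n ih =>
        rw [← up _ (by positivity) ih]
        push_cast
        ring_nf
    exact Set.infinite_of_injective_forall_mem (f := fun n : ℕ => 10 * (n : ℚ) + 1)
      (fun a b hab => by simpa using hab) h3

end N3J

theorem stN3 : StN3 := by
  intro Q R h
  induction hn : R.natDegree using Nat.strong_induction_on generalizing Q R with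
  | _ n ih =>
    by_cases hc : ∀ t : ℚ, R.eval t = 0 → Q.eval t ≠ 0
    · exact N3J.noCommon Q R (fun s => by simpa [eval_comp] using congrArg (eval s) h) hc
    push Not at hc
    obtain ⟨t, hB, hA⟩ := hc
    obtain ⟨A, rfl⟩ := dvd_iff_isRoot.2 hA
    obtain ⟨B, rfl⟩ := dvd_iff_isRoot.2 hB
    by_cases h0 : B = 0
    · simp [h0]
    have h1 : (X - C t : ℚ[X]) ≠ 0 := X_sub_C_ne_zero _
    have h2 : (X - C (t - 10) : ℚ[X]) ≠ 0 := X_sub_C_ne_zero _
    have h3 : B.natDegree < n := by
      rw [← hn, natDegree_mul h1 h0, natDegree_X_sub_C]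
      omega
    refine absurd (ih _ h3 A B ?_ rfl) h0
    apply mul_left_cancel₀ (mul_ne_zero h1 h2)
    simp only [mul_comp, sub_comp, X_comp, C_comp] at h
    rw [C_sub, map_ofNat]
    linear_combination h

end Pool.Agent.MP_760060_nt.W
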