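import Pool.Agent.MP_760060_nt.W.Stm

open Finset Polynomial Filter Topology

namespace Pool.Agent.MP_760060_nt.W

namespace N5J

theorem mom (Λ : ℚ[X] →ₗ[ℚ] ℚ) (y : ℚ) (f : ℚ[X]) (n : ℕ)
    (h : ∀ j < n, Λ ((X - C y) * f * X ^ j) = 0) : ∀ j ≤ n, Λ (f * X ^ j) = Λ f * y ^ j := by
  intro j
  induction j with
  | zero => simp
  | succ j ih =>
    intro hj
    have e : f * X ^ (j + 1) = (X - C y) * f * X ^ j + y • (f * X ^ j) := by
      rw [smul_eq_C_mul]
      ring
    rw [e, map_add, h j hj, map_smul, ih (by omega), smul_eq_mul]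
    ring

end N5J

theorem stN5 : StN5 := by
  intro Λ d k H
  by_contra hc
  have h1 : ∀ y : Fin (d + 1), ∃ f : ℚ[X], f.degree < d ∧
      (∀ j < d + k, Λ ((X - C ((y : ℕ) : ℚ)) * f * X ^ j) = 0) ∧ f ≠ 0 := fun y => by
    by_contra h
    exact hc ⟨y, Nat.lt_succ_iff.1 y.2, fun f a b => by_contra fun c => h ⟨f, a, b, c⟩⟩
  choose f hf1 hf2 hf3 using h1
  have hm := fun y => N5J.mom Λ _ (f y) _ (hf2 y)
  have hc0 : ∀ y, Λ (f y) ≠ 0 := fun y h => hf3 y (H _ (hf1 y) fun j hj => by
    rw [hm y j (by omega), h, zero_mul])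
  have hli : LinearIndependent ℚ fun y => (⟨f y, mem_degreeLT.2 (hf1 y)⟩ : degreeLT ℚ d) := by
    rw [Fintype.linearIndependent_iff]
    intro α hα y
    have h2 : ∑ y, α y • f y = 0 := by simpa using congrArg Subtype.val hα
    have h3 := Matrix.eq_zero_of_forall_pow_sum_mul_pow_eq_zero
      (f := fun y : Fin (d + 1) => ((y : ℕ) : ℚ)) (v := fun y => α y * Λ (f y))
      (Nat.cast_injective.comp Fin.val_injective) fun i => by
        have h4 := congrArg (fun g => Λ (g * X ^ (i : ℕ))) h2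
        simp only [sum_mul, smul_mul_assoc, map_sum, map_smul, zero_mul, map_zero,
          smul_eq_mul] at h4
        rw [← h4]
        refine sum_congr rfl fun y _ => ?_
        rw [hm y i (by omega), mul_assoc]
    exact (mul_eq_zero.1 (congrFun h3 y)).resolve_right (hc0 y)
  have := Module.Finite.of_basis (degreeLT.basis ℚ d)
  have h5 := hli.fintype_card_le_finrank
  rw [Module.finrank_eq_card_basis (degreeLT.basis ℚ d), Fintype.card_fin, Fintype.card_fin] at h5
  omega

end Pool.Agent.MP_760060_nt.W
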