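import Pool.Agent.MP_760060_nt.W.Stm

/-! Newton expansion with integer coefficients. -/

open Finset Polynomial Filter Topology

namespace Pool.Agent.MP_760060_nt.W

theorem stNewt : StNewt := by
  intro k
  induction k with
  | zero => exact fun x f => ⟨fun _ => 0, fun j hj => absurd hj (Nat.not_lt_zero j)⟩
  | succ k ih =>
    intro x f
    obtain ⟨γ, hγ⟩ := ih (fun i => x (i + 1)) (f /ₘ (X - C (x 0)))
    refine ⟨fun i => Nat.casesOn i (f.eval (x 0)) γ, fun j hj => ?_⟩
    have e : f.eval (x j) = f.eval (x 0) + (x j - x 0) * (f /ₘ (X - C (x 0))).eval (x j) := by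
      have h := congrArg (eval (x j)) (modByMonic_add_div f (X - C (x 0)))
      rw [modByMonic_X_sub_C_eq_C_eval] at h
      simpa using h.symm
    rw [sum_range_succ', e]
    simp only [prod_range_succ', prod_range_zero, mul_one]
    rcases j with _ | j
    · simp
    · rw [hγ j (by omega), mul_sum, add_comm]
      congr 1
      exact sum_congr rfl fun i _ => by ring

end Pool.Agent.MP_760060_nt.W
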