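import Pool.Agent.MP_760060_nt.W.Stm

/-! The product formula. -/

open Finset Polynomial Filter Topology

namespace Pool.Agent.MP_760060_nt.W

namespace PFJ

theorem log_nat {n M : ℕ} (h : n ≤ M) : Real.log n =
    ∑ p ∈ (Ioc 0 M).filter Nat.Prime, (padicValNat p n : ℝ) * Real.log p := by
  rw [Real.log_nat_eq_sum_factorization, Finsupp.sum_of_support_subset _
    (s := (Ioc 0 M).filter Nat.Prime) (fun p hp => ?_) _ fun p _ => by simp]
  · exact sum_congr rfl fun p hp => by rw [Nat.factorization_def _ (mem_filter.1 hp).2]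
  · rw [Nat.support_factorization] at hp
    have h1 := Nat.prime_of_mem_primeFactors hp
    exact mem_filter.2 ⟨mem_Ioc.2 ⟨h1.pos, (Nat.le_of_mem_primeFactors hp).trans h⟩, h1⟩

end PFJ

theorem stPF : StPF := by
  intro x N hx h
  have h1 : |(x : ℝ)| = (x.num.natAbs : ℝ) / x.den := by
    rw [Rat.cast_def, abs_div, Nat.cast_natAbs, Int.cast_abs, Nat.abs_cast]
  rw [h1, Real.log_div (by simpa using hx) (by simp),
    PFJ.log_nat (M := N + x.num.natAbs + x.den) (by omega),
    PFJ.log_nat (n := x.den) (M := N + x.num.natAbs + x.den) (by omega), ← sum_sub_distrib]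
  have h2 : ∀ p : ℕ, (padicValNat p x.num.natAbs : ℝ) * Real.log p -
      (padicValNat p x.den : ℝ) * Real.log p = (padicValRat p x : ℝ) * Real.log p := fun p => by
    rw [padicValRat, padicValInt, Int.cast_sub, Int.cast_natCast, Int.cast_natCast, sub_mul]
  simp only [h2]
  refine sum_le_sum_of_subset_of_nonneg
    (filter_subset_filter _ (Ioc_subset_Ioc_right (by omega))) fun p hp hp' => ?_
  have h3 := (mem_filter.1 hp).2
  have : Fact p.Prime := ⟨h3⟩
  have h4 := (vb_iff_val hx).1 (h p h3 (by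
    by_contra h5
    exact hp' (mem_filter.2 ⟨mem_Ioc.2 ⟨h3.pos, not_lt.1 h5⟩, h3⟩)))
  exact mul_nonneg (by linarith) (Real.log_natCast_nonneg p)

end Pool.Agent.MP_760060_nt.W
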